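import Pool.Agent.TH537.EQ.Defs

/-!
# Simplicial cones (piece SIM of the equality case)
-/

set_option autoImplicit false

open MeasureTheory Set
open scoped ENNReal Pointwise Matrix

namespace Pool.Agent.TH929.EQ

open Pool.Agent.TH537.EQ

/-- volume of the closed simplex (adapted from Pool.Agent.VP.JA1) -/
theorem vol_simplex_aux (n : ℕ) : ∀ r : ℝ, 0 ≤ r →
    volume {c : Fin n → ℝ | (∀ i, 0 ≤ c i) ∧ ∑ i, c i ≤ r} =
      ENNReal.ofReal (r ^ n / (n.factorial : ℝ)) := by
  induction n with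
  | zero =>
    intro r hr
    have : {c : Fin 0 → ℝ | (∀ i, 0 ≤ c i) ∧ ∑ i, c i ≤ r} = Set.univ := by
      ext c; simp [hr]
    rw [this]
    simp [MeasureTheory.Measure.volume_pi_eq_dirac (0 : Fin 0 → ℝ)]
  | succ n ih =>
    intro r hr
    let T : Set (ℝ × (Fin n → ℝ)) := {q | 0 ≤ q.1 ∧ (∀ i, 0 ≤ q.2 i) ∧ q.1 + ∑ i, q.2 i ≤ r}
    have hT : MeasurableSet T := by
      have h1 : IsClosed T := by
        have e1 : T = {q | 0 ≤ q.1} ∩ (⋂ i, {q : ℝ × (Fin n → ℝ) | 0 ≤ q.2 i}) ∩
            {q | q.1 + ∑ i, q.2 i ≤ r} := by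
          ext q; simp [T, and_assoc]
        rw [e1]
        refine IsClosed.inter (IsClosed.inter ?_ ?_) ?_
        · exact isClosed_le continuous_const continuous_fst
        · refine isClosed_iInter fun i => ?_
          exact isClosed_le continuous_const ((continuous_apply i).comp continuous_snd)
        · refine isClosed_le ?_ continuous_const
          fun_prop
      exact h1.measurableSet
    have hmp := MeasureTheory.volume_preserving_piFinSuccAbove (fun _ : Fin (n + 1) => ℝ) 0
    have hpre : {c : Fin (n + 1) → ℝ | (∀ i, 0 ≤ c i) ∧ ∑ i, c i ≤ r} =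
        (MeasurableEquiv.piFinSuccAbove (fun _ : Fin (n + 1) => ℝ) 0) ⁻¹' T := by
      ext c
      simp only [Set.mem_ofPred_eq, Set.mem_preimage, T, MeasurableEquiv.piFinSuccAbove_apply,
        Fin.insertNthEquiv_zero]
      rw [Fin.forall_fin_succ, Fin.sum_univ_succ, and_assoc]
      rfl
    rw [hpre, hmp.measure_preimage hT.nullMeasurableSet]
    rw [Measure.volume_eq_prod, Measure.prod_apply hT]
    have hsec : ∀ t : ℝ, volume (Prod.mk t ⁻¹' T) =
        (Set.Icc 0 r).indicator (fun t => ENNReal.ofReal ((r - t) ^ n / (n.factorial : ℝ))) t := by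
      intro t
      by_cases ht : t ∈ Set.Icc 0 r
      · rw [Set.indicator_of_mem ht, ← ih (r - t) (by linarith [ht.2])]
        congr 1
        ext c
        simp only [Set.mem_preimage, T, Set.mem_ofPred_eq]
        constructor
        · rintro ⟨_, h2, h3⟩
          exact ⟨h2, by linarith⟩
        · rintro ⟨h2, h3⟩
          exact ⟨ht.1, h2, by linarith⟩
      · rw [Set.indicator_of_notMem ht]
        have : Prod.mk t ⁻¹' T = ∅ := by
          ext c
          simp only [Set.mem_preimage, T, Set.mem_ofPred_eq, Set.mem_empty_iff_false, iff_false]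
          rintro ⟨h1, h2, h3⟩
          apply ht
          refine ⟨h1, ?_⟩
          have : 0 ≤ ∑ i, c i := Finset.sum_nonneg fun i _ => (h2 i)
          linarith
        rw [this, measure_empty]
    simp_rw [hsec]
    rw [lintegral_indicator measurableSet_Icc]
    have hint : IntervalIntegrable (fun t : ℝ => (r - t) ^ n / (n.factorial : ℝ)) volume 0 r := by
      apply Continuous.intervalIntegrable
      fun_prop
    have hIoc : IntegrableOn (fun t : ℝ => (r - t) ^ n / (n.factorial : ℝ)) (Set.Icc 0 r) volume :=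
      ((intervalIntegrable_iff_integrableOn_Icc_of_le hr).1 hint)
    rw [← ofReal_integral_eq_lintegral_ofReal hIoc]
    · congr 1
      rw [integral_Icc_eq_integral_Ioc, ← intervalIntegral.integral_of_le hr]
      have : ∫ t in (0:ℝ)..r, (r - t) ^ n / (n.factorial : ℝ) =
          (∫ t in (0:ℝ)..r, t ^ n) / (n.factorial : ℝ) := by
        rw [intervalIntegral.integral_div]
        congr 1
        have := intervalIntegral.integral_comp_sub_left (fun t : ℝ => t ^ n) r (a := 0) (b := r)
        rw [this]; simp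
      rw [this, integral_pow, Nat.factorial_succ]
      push_cast
      have h1 : (n.factorial : ℝ) ≠ 0 := by exact_mod_cast n.factorial_ne_zero
      have h2 : (n : ℝ) + 1 ≠ 0 := by positivity
      field_simp
      simp
    · rw [Filter.EventuallyLE, ae_restrict_iff' measurableSet_Icc]
      refine Filter.Eventually.of_forall fun t ht => ?_
      simp only [Pi.zero_apply]
      have : 0 ≤ r - t := by linarith [ht.2]
      positivity


variable {N : ℕ} {C : Set (Fin N → ℝ)} {e c : Fin N → ℝ} {b : Fin N → (Fin N → ℝ)}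

lemma det_ne (hb : LinearIndependent ℝ b) : (Matrix.of b).det ≠ 0 := by
  intro h
  have h1 : LinearIndependent ℝ (Matrix.of b).row := hb
  rw [Matrix.linearIndependent_rows_iff_isUnit, Matrix.isUnit_iff_isUnit_det, h] at h1
  exact not_isUnit_zero h1

lemma sum_eq (s : Fin N → ℝ) : ∑ i, s i • b i = Matrix.toLin' (Matrix.of b)ᵀ s := by
  rw [Matrix.toLin'_apply, Matrix.mulVec_transpose]
  funext j
  simp only [Finset.sum_apply, Pi.smul_apply, smul_eq_mul, Matrix.vecMul, dotProduct,
    Matrix.of_apply]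

lemma sum_dot (s y : Fin N → ℝ) : (∑ i, s i • b i) ⬝ᵥ y = ∑ i, s i * (b i ⬝ᵥ y) := by
  rw [sum_dotProduct]
  simp only [smul_dotProduct, smul_eq_mul]

lemma vol_T (_hb : LinearIndependent ℝ b)
    (hC : C = {x | ∃ s : Fin N → ℝ, (∀ i, 0 ≤ s i) ∧ x = ∑ i, s i • b i})
    (he : ∀ i, b i ⬝ᵥ e = 1) :
    volume (T C e) = ENNReal.ofReal (|(Matrix.of b).det| / N.factorial) := by
  have h1 : T C e = Matrix.toLin' (Matrix.of b)ᵀ '' {s | (∀ i, 0 ≤ s i) ∧ ∑ i, s i ≤ 1} := by
    ext x
    constructor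
    · rintro ⟨hx, hx1⟩
      rw [hC] at hx
      obtain ⟨s, hs, rfl⟩ := hx
      refine ⟨s, ⟨hs, ?_⟩, (sum_eq s).symm⟩
      rw [sum_dot] at hx1
      simpa [he] using hx1
    · rintro ⟨s, ⟨hs, hs1⟩, rfl⟩
      rw [← sum_eq]
      refine ⟨by rw [hC]; exact ⟨s, hs, rfl⟩, ?_⟩
      rw [sum_dot]
      simpa [he] using hs1
  rw [h1, Measure.addHaar_image_linearMap, LinearMap.det_toLin', Matrix.det_transpose,
    vol_simplex_aux N 1 zero_le_one, one_pow, ← ENNReal.ofReal_mul (abs_nonneg _)]
  congr 1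
  ring

lemma vol_Td (hb : LinearIndependent ℝ b)
    (hC : C = {x | ∃ s : Fin N → ℝ, (∀ i, 0 ≤ s i) ∧ x = ∑ i, s i • b i})
    {t : Fin N → ℝ} (ht : ∀ i, 0 < t i) (hc : c = ∑ i, t i • b i) :
    volume (T (dl C) c) =
      ENNReal.ofReal (|(Matrix.of b).det|⁻¹ * (∏ i, t i)⁻¹ / N.factorial) := by
  have hmem : ∀ i, b i ∈ C := fun i => by
    rw [hC]
    refine ⟨Pi.single i 1, fun j => ?_, ?_⟩
    · by_cases h : j = i
      · subst h; simp
      · simp [h]
    · rw [Finset.sum_eq_single i]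
      · simp
      · intro j _ hj; simp [hj]
      · simp
  have h1 : T (dl C) c = Matrix.toLin' (Matrix.diagonal t * Matrix.of b) ⁻¹'
      {s | (∀ i, 0 ≤ s i) ∧ ∑ i, s i ≤ 1} := by
    have key : ∀ y : Fin N → ℝ, ∀ i, Matrix.toLin' (Matrix.diagonal t * Matrix.of b) y i =
        t i * (b i ⬝ᵥ y) := by
      intro y i
      rw [Matrix.toLin'_apply, ← Matrix.mulVec_mulVec, Matrix.mulVec_diagonal]
      rfl
    ext y
    constructor
    · rintro ⟨hy, hy1⟩
      refine ⟨fun i => ?_, ?_⟩
      · rw [key]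
        exact mul_nonneg (ht i).le (hy _ (hmem i))
      · simp only [key]
        have h2 : y ⬝ᵥ c = ∑ i, t i * (b i ⬝ᵥ y) := by
          rw [dotProduct_comm, hc, sum_dot]
        rw [← h2]; exact hy1
    · rintro ⟨hy, hy1⟩
      simp only [key] at hy hy1
      refine ⟨fun x hx => ?_, ?_⟩
      · rw [hC] at hx
        obtain ⟨s, hs, rfl⟩ := hx
        rw [sum_dot]
        refine Finset.sum_nonneg fun i _ => mul_nonneg (hs i) ?_
        exact nonneg_of_mul_nonneg_right (hy i) (ht i)
      · show y ⬝ᵥ c ≤ 1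
        rw [dotProduct_comm, hc, sum_dot]
        exact hy1
  have hdet : (Matrix.diagonal t * Matrix.of b).det = (∏ i, t i) * (Matrix.of b).det := by
    rw [Matrix.det_mul, Matrix.det_diagonal]
  have hp : 0 < ∏ i, t i := Finset.prod_pos fun i _ => ht i
  rw [h1, Measure.addHaar_preimage_linearMap _ (by
      rw [LinearMap.det_toLin', hdet]
      exact mul_ne_zero hp.ne' (det_ne hb)), LinearMap.det_toLin', hdet,
    vol_simplex_aux N 1 zero_le_one, one_pow, ← ENNReal.ofReal_mul (abs_nonneg _)]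
  congr 1
  rw [abs_inv, abs_mul, abs_of_pos hp, mul_inv]
  ring

/-- the coordinates of an interior point are positive -/
lemma coord_pos (hb : LinearIndependent ℝ b)
    (hC : C = {x | ∃ s : Fin N → ℝ, (∀ i, 0 ≤ s i) ∧ x = ∑ i, s i • b i})
    (hc : c ∈ interior C) : ∃ t : Fin N → ℝ, (∀ i, 0 < t i) ∧ c = ∑ i, t i • b i := by
  have hcC : c ∈ C := interior_subset hc
  rw [hC] at hcC
  obtain ⟨t, ht0, ht⟩ := hcC
  refine ⟨t, fun i => ?_, ht⟩
  by_contra hneg
  have hti : t i = 0 := le_antisymm (not_lt.1 hneg) (ht0 i)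
  -- `c - ε b i ∈ C` for small `ε > 0`
  have hcont : Continuous fun ε : ℝ => c - ε • b i := by fun_prop
  have h0 : (fun ε : ℝ => c - ε • b i) 0 ∈ interior C := by simpa using hc
  have hev : ∀ᶠ ε in nhds (0:ℝ), c - ε • b i ∈ interior C :=
    hcont.continuousAt.eventually_mem (isOpen_interior.mem_nhds h0)
  obtain ⟨δ, hδ, hδ'⟩ := Metric.eventually_nhds_iff.1 hev
  have h1 : c - (δ / 2) • b i ∈ C := interior_subset (hδ' (by
    rw [Real.dist_eq, sub_zero, abs_of_pos (by positivity)]; linarith))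
  rw [hC] at h1
  obtain ⟨s, hs, hse⟩ := h1
  have h2 : ∑ j, (t j - s j - (if j = i then δ / 2 else 0)) • b j = 0 := by
    have h3 : ∑ j, (if j = i then δ / 2 else 0) • b j = (δ / 2) • b i := by
      rw [Finset.sum_eq_single i]
      · simp
      · intro j _ hj; simp [hj]
      · simp
    simp only [sub_smul, Finset.sum_sub_distrib]
    rw [h3, ← ht, ← hse]
    abel
  have h4 := (Fintype.linearIndependent_iff.1 hb) _ h2 i
  simp only [if_true, hti] at h4
  have := hs i
  linarith

theorem t_SIM : S_SIM := by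
  intro N C e c hN hCN hpos hc hce hS
  obtain ⟨b0, hb0, hC0⟩ := hS
  have hmem : ∀ i, b0 i ∈ C := fun i => by
    rw [hC0]
    refine ⟨Pi.single i 1, fun j => ?_, ?_⟩
    · by_cases h : j = i
      · subst h; simp
      · simp [h]
    · rw [Finset.sum_eq_single i]
      · simp
      · intro j _ hj; simp [hj]
      · simp
  have hp : ∀ i, 0 < b0 i ⬝ᵥ e := fun i => hpos _ (hmem i) (hb0.ne_zero i)
  set b : Fin N → (Fin N → ℝ) := fun i => (b0 i ⬝ᵥ e)⁻¹ • b0 i with hbdef
  have hb : LinearIndependent ℝ b := by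
    have h := hb0.units_smul (fun i => Units.mk0 (b0 i ⬝ᵥ e)⁻¹ (inv_ne_zero (hp i).ne'))
    exact h
  have hC : C = {x | ∃ s : Fin N → ℝ, (∀ i, 0 ≤ s i) ∧ x = ∑ i, s i • b i} := by
    rw [hC0]
    ext x
    constructor
    · rintro ⟨s, hs, rfl⟩
      refine ⟨fun i => s i * (b0 i ⬝ᵥ e), fun i => mul_nonneg (hs i) (hp i).le, ?_⟩
      refine Finset.sum_congr rfl fun i _ => ?_
      rw [hbdef, smul_smul, mul_assoc, mul_inv_cancel₀ (hp i).ne', mul_one]
    · rintro ⟨s, hs, rfl⟩
      refine ⟨fun i => s i * (b0 i ⬝ᵥ e)⁻¹, fun i => mul_nonneg (hs i) (inv_nonneg.2 (hp i).le), ?_⟩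
      refine Finset.sum_congr rfl fun i _ => ?_
      rw [hbdef, smul_smul]
  have hbe : ∀ i, b i ⬝ᵥ e = 1 := fun i => by
    rw [hbdef]
    simp only [smul_dotProduct, smul_eq_mul]
    exact inv_mul_cancel₀ (hp i).ne'
  obtain ⟨t, ht, hct⟩ := coord_pos hb hC hc
  refine ⟨b, t, hb, hC, hbe, ht, ?_, hct, ?_⟩
  · rw [hct, sum_dot] at hce
    simpa [hbe] using hce
  · have hd : 0 < |(Matrix.of b).det| := abs_pos.2 (det_ne hb)
    have hp' : 0 < ∏ i, t i := Finset.prod_pos fun i _ => ht i
    have hf : (0:ℝ) < N.factorial := by positivity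
    rw [Measure.real, Measure.real, vol_T hb hC hbe, vol_Td hb hC ht hct,
      ENNReal.toReal_ofReal (by positivity), ENNReal.toReal_ofReal (by positivity)]
    field_simp

end Pool.Agent.TH929.EQ
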